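import Pool.Agent.H94.QV2

set_option autoImplicit false

namespace Pool.Agent.Results.MP_c8f9b2_an.Volume
open Pool.Agent.H94.QV MeasureTheory

theorem result (m : ℕ) (hm : 3 ≤ m) :
    (∀ (a : Fin m → ℝ) (u : ℝ → ℝ), Sol m a u →
      Integrable fun x : EuclideanSpace ℝ (Fin (2 * m)) => Real.exp (u ‖x‖)) ∧
    ∀ u : (Fin m → ℝ) → ℝ → ℝ, (∀ a, Sol m a (u a)) →
      ¬ Continuous fun a => ∫ x : EuclideanSpace ℝ (Fin (2 * m)), Real.exp (u a ‖x‖) := by
  obtain ⟨m, rfl⟩ := Nat.exists_eq_add_of_le' hm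
  have e : Module.finrank ℝ (EuclideanSpace ℝ (Fin (2 * (m + 3)))) - 1 = 2 * (m + 2) + 1 := by
    rw [finrank_euclideanSpace_fin]; rfl
  refine ⟨fun a u h => ?_, fun u hu hc => disc u hu ?_⟩
  · obtain ⟨v, d, k, rfl, -⟩ := h.ch
    rw [integrable_fun_norm_addHaar volume (f := fun r => Real.exp (v 0 r)), e]
    exact k.int
  · simp only [fun a => integral_fun_norm_addHaar
      (volume : Measure (EuclideanSpace ℝ (Fin (2 * (m + 3))))) (fun r => Real.exp (u a r)),
      finrank_euclideanSpace_fin, nsmul_eq_mul, smul_eq_mul, ← mul_assoc] at hc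
    have p : (0 : ℝ) < ((2 * (m + 3) : ℕ) : ℝ) *
        (volume : Measure (EuclideanSpace ℝ (Fin (2 * (m + 3))))).real (Metric.ball 0 1) :=
      mul_pos (by positivity) (ENNReal.toReal_pos (Metric.measure_ball_pos _ _ one_pos).ne'
        measure_ball_lt_top.ne)
    exact (hc.const_mul _).congr fun a => inv_mul_cancel_left₀ p.ne' _

end Pool.Agent.Results.MP_c8f9b2_an.Volume
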